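import Pool.Agent.TH22.UF.Build
import Pool.Agent.TH22.UF.Half

/-!
# The braiding of the C*-tensor category of decomposed objects is unitary
-/

set_option autoImplicit false
set_option linter.unusedSectionVars false
set_option linter.unusedVariables false

open CategoryTheory CategoryTheory.Limits MonoidalCategory Pool.Agent.TH22.UF

namespace Pool.Agent.D0H74.UFB

universe v u

section general

variable {D : Type u} [Category.{v} D] [Preadditive D] [Linear ℂ D] [MonoidalCategory D]
  [MonoidalPreadditive D] [MonoidalLinear ℂ D] [BraidedCategory D]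

/-- The half-braiding of an object of a braided category. -/
def brHalf (X : D) : CStarTensorStructure.HalfBr X where
  c Y := β_ X Y
  nat f := BraidedCategory.braiding_naturality_right X f
  hex Y Z := BraidedCategory.braiding_tensor_right_hom X Y Z

/-- If the braidings with the members of a list into which all the objects decompose are unitary,
then the braiding is unitary. -/
lemma star_braiding_of_list (s : CStarTensorStructure D) {r : ℕ} {T : Fin r → D}
    (hT : s.FinDec T) (h : ∀ a (Y : D), s.star (β_ (T a) Y).hom = (β_ (T a) Y).inv) (X Y : D) :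
    s.star (β_ X Y).hom = (β_ X Y).inv := by
  obtain ⟨n, b, ι, hι⟩ := hT X
  have e0 : ∀ k, (Y ◁ ι k) ≫ s.star (β_ X Y).hom = (β_ (T (b k)) Y).inv ≫ ι k ▷ Y := by
    intro k
    have h1 := BraidedCategory.braiding_naturality_left (s.star (ι k)) Y
    have h2 := congrArg s.star h1
    simp only [s.star_comp, s.star_whiskerLeft, s.star_whiskerRight, s.star_star, h] at h2
    exact h2.symm
  have e1 : (β_ X Y).hom ≫ s.star (β_ X Y).hom = 𝟙 (X ⊗ Y) := by
    have e2 : (β_ X Y).hom ≫ s.star (β_ X Y).hom =
        ∑ k, ((s.star (ι k) ≫ ι k) ▷ Y) ≫ (β_ X Y).hom ≫ s.star (β_ X Y).hom := by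
      rw [← Preadditive.sum_comp, ← sum_whiskerRight, hι, id_whiskerRight, Category.id_comp]
    rw [e2]
    have e3 : ∀ k, ((s.star (ι k) ≫ ι k) ▷ Y) ≫ (β_ X Y).hom ≫ s.star (β_ X Y).hom =
        (s.star (ι k) ≫ ι k) ▷ Y := by
      intro k
      rw [comp_whiskerRight, Category.assoc, BraidedCategory.braiding_naturality_left_assoc, e0,
        Iso.hom_inv_id_assoc]
    simp_rw [e3]
    rw [← sum_whiskerRight, hι, id_whiskerRight]
  rw [← cancel_epi (β_ X Y).hom, e1, Iso.hom_inv_id]

/-- **The braiding of a C*-tensor category with finitely many simple objects, with simple unit and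
right duals, is unitary** (Galindo's theorem). -/
theorem star_braiding (s : CStarTensorStructure D) {r : ℕ} {T : Fin r → D}
    (hT : s.FinDec T) (hB : s.Bdd) (hsc : ∀ a, CStarTensorStructure.Scal (T a))
    (h1 : CStarTensorStructure.Scal (𝟙_ D))
    (hd : ∀ Y : D, ∃ Y' : D, Nonempty (ExactPairing Y Y')) (X Y : D) :
    s.star (β_ X Y).hom = (β_ X Y).inv := by
  refine star_braiding_of_list s hT (fun a Y => ?_) X Y
  obtain ⟨Y', ⟨hY⟩⟩ := hd Y
  exact CStarTensorStructure.star_halfBr hT hB (hsc a) h1 (brHalf (T a)) (Y := Y) (Y' := Y')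

end general

section matrices

open scoped ComplexOrder MatrixOrder Matrix.Norms.L2Operator

lemma exists_complement {n m : Type*} [Fintype n] [Fintype m] [DecidableEq n]
    (M : Matrix n m ℂ) : ∃ K₀ : ℝ, 0 ≤ K₀ ∧ ∀ K : ℝ, K₀ ≤ K →
      ∃ A : Matrix n n ℂ, (K : ℂ) • (1 : Matrix n n ℂ) =
        M * M.conjTranspose + A * A.conjTranspose := by
  have hA : (M * M.conjTranspose).PosSemidef := Matrix.posSemidef_self_mul_conjTranspose M
  have hsa : IsSelfAdjoint (M * M.conjTranspose) := hA.isHermitian
  refine ⟨‖M * M.conjTranspose‖, norm_nonneg _, fun K hK => ?_⟩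
  have h1 : M * M.conjTranspose ≤ algebraMap ℝ (Matrix n n ℂ) ‖M * M.conjTranspose‖ :=
    hsa.le_algebraMap_norm_self
  have h2 : algebraMap ℝ (Matrix n n ℂ) ‖M * M.conjTranspose‖ ≤ algebraMap ℝ (Matrix n n ℂ) K :=
    algebraMap_mono (Matrix n n ℂ) hK
  have h3 : 0 ≤ algebraMap ℝ (Matrix n n ℂ) K - M * M.conjTranspose := sub_nonneg.mpr (h1.trans h2)
  obtain ⟨A, hA'⟩ := CStarAlgebra.nonneg_iff_eq_star_mul_self.mp h3
  refine ⟨star A, ?_⟩
  have h4 : (star A) * (star A).conjTranspose = star A * A := by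
    rw [← Matrix.star_eq_conjTranspose, star_star]
  rw [h4, ← hA', add_sub_cancel, Algebra.algebraMap_eq_smul_one]
  exact (Complex.coe_smul K (1 : Matrix n n ℂ))

end matrices

section hobj

variable {C : Type u} [Category.{v} C] [Preadditive C] [Linear ℂ C] [MonoidalCategory C]
  [MonoidalPreadditive C] [MonoidalLinear ℂ C]

variable {r : ℕ} {S : Fin r → C} {𝒟 : UData S}

instance : MonoidalPreadditive (HObj 𝒟) where
  whiskerLeft_zero {X Y Z} := MonoidalPreadditive.whiskerLeft_zero (C := C) (X := X.X) (Y := Y.X) (Z := Z.X)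
  zero_whiskerRight {X Y Z} := MonoidalPreadditive.zero_whiskerRight (C := C) (X := X.X) (Y := Y.X) (Z := Z.X)
  whiskerLeft_add {X Y Z} f g := MonoidalPreadditive.whiskerLeft_add (C := C) (X := X.X) (Y := Y.X) (Z := Z.X) f g
  add_whiskerRight {X Y Z} f g := MonoidalPreadditive.add_whiskerRight (C := C) (X := X.X) (Y := Y.X) (Z := Z.X) f g

instance : MonoidalLinear ℂ (HObj 𝒟) where
  whiskerLeft_smul X Y Z r f := MonoidalLinear.whiskerLeft_smul (C := C) X.X r f
  smul_whiskerRight r Y Z f X := MonoidalLinear.smul_whiskerRight (C := C) r f X.X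

end hobj

end Pool.Agent.D0H74.UFB
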