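import Pool.Agent.D0H74.UFB.Braid
import Pool.Agent.TH22.UF.Reverse

/-!
# Braided fusion categories with unitary F-matrices are unitary
-/

set_option autoImplicit false
set_option linter.unusedSectionVars false
set_option linter.unusedVariables false

open CategoryTheory CategoryTheory.Limits MonoidalCategory Pool.Agent.TH22.UF

namespace Pool.Agent.D0H74.UFB

universe v u

section defs

variable {C : Type u} [Category.{v} C] [Preadditive C] [Linear ℂ C] [MonoidalCategory C]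
  [BraidedCategory C] {r : ℕ} {S : Fin r → C}

/-- `R` is the braiding matrix `R^{ab}_c` of the gauge `g`: the matrix, in the chosen bases, of the
map `V^{ab}_c → V^{ba}_c` given by composition with the braiding `c_{a,b}`. -/
def IsRMatrix (g : Gauge S) (a b c : Fin r)
    (R : Matrix (Fin (g.N b a c)) (Fin (g.N a b c)) ℂ) : Prop :=
  ∀ i : Fin (g.N a b c), g.basis a b c i ≫ (β_ (S a) (S b)).hom = ∑ j, R j i • g.basis b a c j

/-- All the braiding matrices of the gauge `g` are unitary. -/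
def UnitaryR (g : Gauge S) : Prop :=
  ∀ a b c : Fin r, ∃ R : Matrix (Fin (g.N b a c)) (Fin (g.N a b c)) ℂ,
    IsRMatrix g a b c R ∧ R.conjTranspose * R = 1 ∧ R * R.conjTranspose = 1

/-- The braiding matrices are diagonal in the gauge `g`: each `R^{ab}_c` maps each chosen basis
vector of `V^{ab}_c` to a scalar multiple of the matching basis vector of `V^{ba}_c`. -/
def DiagonalR (g : Gauge S) : Prop :=
  ∀ a b c : Fin r, ∃ σ : Fin (g.N a b c) ≃ Fin (g.N b a c), ∀ i : Fin (g.N a b c), ∃ z : ℂ,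
    g.basis a b c i ≫ (β_ (S a) (S b)).hom = z • g.basis b a c (σ i)

end defs

section hobj

variable {C : Type u} [Category.{v} C] [Preadditive C] [Linear ℂ C] [MonoidalCategory C]
  [MonoidalPreadditive C] [MonoidalLinear ℂ C]

variable {r : ℕ} {S : Fin r → C} {𝒟 : UData S}

/-- The simple objects as decomposed objects. -/
noncomputable def tObj (𝒟 : UData S) (a : Fin r) : HObj 𝒟 := ⟨S a, isoStr a (Iso.refl _)⟩

lemma star_inc (Y : HObj 𝒟) (a : Fin r) (t : Y.str.J a) :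
    cstar.star (X := tObj 𝒟 a) (Y := Y) (Y.str.inc a t) = Y.str.prj a t := by
  have h := adj_prj_inc 𝒟.B (isoStr a (Iso.refl (S a))) Y.str a ⟨rfl⟩ t
  have h1 : (isoStr a (Iso.refl (S a))).prj a ⟨rfl⟩ = 𝟙 (S a) := by simp [isoStr]
  have h2 : (isoStr a (Iso.refl (S a))).inc a ⟨rfl⟩ = 𝟙 (S a) := by simp [isoStr]
  rw [h1, h2, Category.id_comp, Category.comp_id] at h
  exact h

lemma finDec (𝒟 : UData S) : (cstar (𝒟 := 𝒟)).FinDec (tObj 𝒟) := by
  intro Y
  let e := Fintype.equivFin (Σ a, Y.str.J a)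
  refine ⟨Fintype.card (Σ a, Y.str.J a), fun k => (e.symm k).1,
    fun k => Y.str.inc (e.symm k).1 (e.symm k).2, ?_⟩
  have h1 : ∀ k, cstar.star (X := tObj 𝒟 (e.symm k).1) (Y := Y)
      (Y.str.inc (e.symm k).1 (e.symm k).2) = Y.str.prj (e.symm k).1 (e.symm k).2 :=
    fun k => star_inc Y _ _
  simp_rw [h1]
  have h2 := Y.str.total
  rw [← Fintype.sum_sigma (f := fun x : Σ a, Y.str.J a => Y.str.prj x.1 x.2 ≫ Y.str.inc x.1 x.2),
    ← e.symm.sum_comp] at h2
  exact h2

lemma bdd_aux (B : Base S) {X Y : C} (hX : HStr S X) (hY : HStr S Y) (f : X ⟶ Y) :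
    ∃ (K : ℝ) (g : X ⟶ X), (K : ℂ) • 𝟙 X = f ≫ adj B hX hY f + g ≫ adj B hX hX g := by
  classical
  have h := fun a => exists_complement (mat B hX hY f a)
  choose K₀ hK₀ hK using h
  have h1 : ∀ a, K₀ a ≤ ∑ b, K₀ b := fun a =>
    Finset.single_le_sum (f := K₀) (fun b _ => hK₀ b) (Finset.mem_univ a)
  choose A hA using fun a => hK a _ (h1 a)
  refine ⟨∑ b, K₀ b, ofMat hX hX A, ?_⟩
  apply mat_injective B hX hX
  funext a
  have h2 := mat_id B hX a
  rw [mat_smul, mat_add, mat_comp B hX hY hX, mat_comp B hX hX hX, mat_adj,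
    mat_adj, mat_ofMat, ← hA a, h2]

lemma bdd (𝒟 : UData S) : (cstar (𝒟 := 𝒟)).Bdd := fun {Z Z'} f =>
  bdd_aux 𝒟.B Z.str Z'.str f

lemma scal_tObj (𝒟 : UData S) (a : Fin r) : CStarTensorStructure.Scal (tObj 𝒟 a) where
  scalar f := ⟨𝒟.B.coef a f, 𝒟.B.coef_smul a f⟩
  ne h := by
    have h1 : (𝟙 (S a)) = 0 := h
    have h2 := 𝒟.B.coef_id a
    rw [h1, map_zero] at h2
    exact zero_ne_one h2

lemma scal_unit (𝒟 : UData S) : CStarTensorStructure.Scal (𝟙_ (HObj 𝒟)) where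
  scalar f := by
    have h1 : ∀ f : 𝟙_ C ⟶ 𝟙_ C, ∃ z : ℂ, f = z • 𝟙 (𝟙_ C) := by
      intro f
      refine ⟨𝒟.B.coef _ (𝒟.u.hom ≫ f ≫ 𝒟.u.inv), ?_⟩
      have h2 := 𝒟.B.coef_smul _ (𝒟.u.hom ≫ f ≫ 𝒟.u.inv)
      have h3 : f = 𝒟.u.inv ≫ (𝒟.u.hom ≫ f ≫ 𝒟.u.inv) ≫ 𝒟.u.hom := by simp
      conv_lhs => rw [h3, h2]
      simp
    exact h1 f
  ne h := by
    have h1 : (𝟙 (𝟙_ C)) = 0 := h
    have h2 := 𝒟.B.coef_id 𝒟.a₀
    have h3 : 𝟙 (S 𝒟.a₀) = 𝒟.u.hom ≫ 𝟙 (𝟙_ C) ≫ 𝒟.u.inv := by simp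
    rw [h3, h1, zero_comp, comp_zero, map_zero] at h2
    exact zero_ne_one h2

/-- Duals in the category of decomposed objects. -/
@[instance_reducible]
def pairingHObj (Y Y' : HObj 𝒟) [ExactPairing Y.X Y'.X] : ExactPairing Y Y' where
  coevaluation' := (η_ Y.X Y'.X : 𝟙_ C ⟶ Y.X ⊗ Y'.X)
  evaluation' := (ε_ Y.X Y'.X : Y'.X ⊗ Y.X ⟶ 𝟙_ C)
  coevaluation_evaluation' := ExactPairing.coevaluation_evaluation Y.X Y'.X
  evaluation_coevaluation' := ExactPairing.evaluation_coevaluation Y.X Y'.X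

lemma tensor_inc (𝒟 : UData S) (a b c : Fin r) (i : (𝒟.V a b).J c) :
    (tObj 𝒟 a ⊗ tObj 𝒟 b).str.inc c ⟨(a, b), ⟨rfl⟩, ⟨rfl⟩, i⟩ = (𝒟.V a b).inc c i := by
  change (𝒟.V a b).inc c i ≫ ((isoStr a (Iso.refl (S a))).inc a ⟨rfl⟩ ⊗ₘ
    (isoStr b (Iso.refl (S b))).inc b ⟨rfl⟩) = _
  have h2 : ∀ a, (isoStr a (Iso.refl (S a))).inc a ⟨rfl⟩ = 𝟙 (S a) := by
    intro a
    simp [isoStr]
  rw [h2, h2]
  simp

lemma tensor_prj (𝒟 : UData S) (a b c : Fin r) (i : (𝒟.V a b).J c) :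
    (tObj 𝒟 a ⊗ tObj 𝒟 b).str.prj c ⟨(a, b), ⟨rfl⟩, ⟨rfl⟩, i⟩ = (𝒟.V a b).prj c i := by
  change ((isoStr a (Iso.refl (S a))).prj a ⟨rfl⟩ ⊗ₘ
    (isoStr b (Iso.refl (S b))).prj b ⟨rfl⟩) ≫ (𝒟.V a b).prj c i = _
  have h2 : ∀ a, (isoStr a (Iso.refl (S a))).prj a ⟨rfl⟩ = 𝟙 (S a) := by
    intro a
    simp [isoStr]
  rw [h2, h2]
  simp

lemma star_V_inc (𝒟 : UData S) (a b c : Fin r) (i : (𝒟.V a b).J c) :
    cstar.star (X := tObj 𝒟 c) (Y := tObj 𝒟 a ⊗ tObj 𝒟 b) ((𝒟.V a b).inc c i) =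
      (𝒟.V a b).prj c i := by
  have h := star_inc (tObj 𝒟 a ⊗ tObj 𝒟 b) c ⟨(a, b), ⟨rfl⟩, ⟨rfl⟩, i⟩
  rw [tensor_inc, tensor_prj] at h
  exact h

variable [BraidedCategory C]

noncomputable instance : BraidedCategory (HObj 𝒟) where
  braiding X Y := mkIso (β_ X.X Y.X)
  braiding_naturality_right X _ _ f := BraidedCategory.braiding_naturality_right (C := C) X.X f
  braiding_naturality_left f Z := BraidedCategory.braiding_naturality_left (C := C) f Z.X
  hexagon_forward X Y Z := BraidedCategory.hexagon_forward (C := C) X.X Y.X Z.X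
  hexagon_reverse X Y Z := BraidedCategory.hexagon_reverse (C := C) X.X Y.X Z.X

noncomputable instance : (forgetF (𝒟 := 𝒟)).Braided where
  braided X Y := by
    change 𝟙 (X.X ⊗ Y.X) ≫ (β_ X.X Y.X).hom = (β_ X.X Y.X).hom ≫ 𝟙 (Y.X ⊗ X.X)
    rw [Category.id_comp, Category.comp_id]

theorem star_braiding_hobj [RigidCategory C] (hstr : ∀ X : C, Nonempty (HStr S X))
    (X Y : HObj 𝒟) : cstar.star (β_ X Y).hom = (β_ X Y).inv := by
  refine star_braiding cstar (finDec 𝒟) (bdd 𝒟) (scal_tObj 𝒟) (scal_unit 𝒟) (fun Y => ?_) X Y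
  exact ⟨⟨Y.Xᘁ, (hstr _).some⟩, ⟨pairingHObj Y ⟨Y.Xᘁ, (hstr _).some⟩⟩⟩

end hobj

section main

variable {C : Type u} [Category.{v} C] [Abelian C] [Linear ℂ C] [HasFiniteBiproducts C]
  [MonoidalCategory C] [MonoidalPreadditive C] [MonoidalLinear ℂ C] [RigidCategory C]

variable {r : ℕ} {S : Fin r → C}

/-- The unitary data attached to a gauge with unitary F-matrices, with control of the bases. -/
lemma exists_udata' (hC : IsFusionCategory C) (hS : IsSimpleList S) (g : Gauge S)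
    (hg : g.UnitaryF) : ∃ 𝒟 : UData S, ∃ e : ∀ a b c, Fin (g.N a b c) ≃ (𝒟.V a b).J c,
      ∀ a b c i, (𝒟.V a b).inc c (e a b c i) = g.basis a b c i := by
  classical
  obtain ⟨B⟩ := exists_base hC.finiteDimensional_hom hS
  have hstr := exists_hstr hS B hC.semisimple
  have hsimp := hC.simple_unit
  have hV : ∀ a b, ∃ prj : ∀ c, Fin (g.N a b c) → (S a ⊗ S b ⟶ S c),
      (∀ c s, g.basis a b c s ≫ prj c s = 𝟙 (S c)) ∧
      (∀ c s t, s ≠ t → g.basis a b c s ≫ prj c t = 0) ∧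
      ∑ c, ∑ s, prj c s ≫ g.basis a b c s = 𝟙 (S a ⊗ S b) :=
    fun a b => exists_hstr_basis B (hstr (S a ⊗ S b)).some (g.N a b) (g.basis a b)
  choose prj hp1 hp2 hp3 using hV
  let V : ∀ a b, HStr S (S a ⊗ S b) := fun a b =>
    { J := fun c => Fin (g.N a b c)
      fin := fun c => inferInstance
      inc := fun c s => g.basis a b c s
      prj := fun c s => prj a b c s
      inc_prj_self := hp1 a b
      inc_prj_ne := hp2 a b
      total := hp3 a b }
  have hVu : UnitaryV V := by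
    intro a b c d
    obtain ⟨F, hF1, hF2, -⟩ := hg a b c d
    refine ⟨F, ?_, ?_, ?_⟩
    · intro p
      have := hF1 p
      unfold Gauge.srcVec Gauge.tgtVec at this
      rw [Category.assoc] at this
      exact this
    · intro p p' hpp
      have h := congrFun (congrFun hF2 p) p'
      rw [Matrix.mul_apply, Matrix.one_apply, if_neg hpp] at h
      simp_rw [Matrix.conjTranspose_apply] at h
      exact h
    · intro p
      have h := congrFun (congrFun hF2 p) p
      rw [Matrix.mul_apply, Matrix.one_apply, if_pos rfl] at h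
      simp_rw [Matrix.conjTranspose_apply] at h
      exact h
  have hne : ∀ a, 𝟙 (S a) ≠ 0 := fun a => by
    have := hS.simple a
    exact id_nonzero (S a)
  have hnt : ∀ a b, ∃ d, Nonempty ((V a b).J d) := by
    intro a b
    by_contra hcon
    push Not at hcon
    apply tensor_ne_zero B hS hstr (hne a) (hne b)
    rw [← (V a b).total]
    refine Finset.sum_eq_zero fun c _ => ?_
    have := hcon c
    simp
  obtain ⟨a₀, ⟨e⟩⟩ := hS.complete (𝟙_ C) hsimp
  let u : S a₀ ≅ 𝟙_ C := e.symm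
  -- the common absolute value
  obtain ⟨j₀⟩ := nonempty_left B V u hne a₀
  obtain ⟨i₀⟩ := nonempty_right B V u hne a₀
  let κ : ℝ := ‖zl B V u a₀ j₀‖
  have hr : ∀ a i, ‖zr B V u a i‖ = κ := fun a i => norm_zr_eq_zl B u hVu hnt a a₀ i j₀
  have hl : ∀ b j, ‖zl B V u b j‖ = κ := fun b j => by
    rw [← norm_zr_eq_zl B u hVu hnt a₀ b i₀ j, hr]
  have hκ : κ ≠ 0 := by
    intro h
    have h1 := zl_mul B V u a₀ j₀
    rw [norm_eq_zero.mp h, zero_mul] at h1
    exact zero_ne_one h1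
  have hκ' : (κ : ℂ) ≠ 0 := by exact_mod_cast hκ
  let u' : S a₀ ≅ 𝟙_ C :=
    { hom := (κ : ℂ)⁻¹ • u.hom
      inv := (κ : ℂ) • u.inv
      hom_inv_id := by
        rw [Linear.smul_comp, Linear.comp_smul, smul_smul, inv_mul_cancel₀ hκ', one_smul,
          u.hom_inv_id]
      inv_hom_id := by
        rw [Linear.smul_comp, Linear.comp_smul, smul_smul, mul_inv_cancel₀ hκ', one_smul,
          u.inv_hom_id] }
  refine ⟨⟨B, V, a₀, u', hVu, ?_, ?_⟩, fun a b c => Equiv.refl _, fun a b c i => rfl⟩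
  · intro b i
    have h1 : zl B V u' b i = (κ : ℂ)⁻¹ * zl B V u b i := by
      unfold zl
      change B.coef b ((V a₀ b).inc b i ≫ ((((κ : ℂ)⁻¹ • u.hom)) ▷ S b) ≫ (λ_ (S b)).hom) = _
      simp
    rw [h1, norm_mul, hl b i, norm_inv, Complex.norm_real, Real.norm_of_nonneg (norm_nonneg _)]
    exact inv_mul_cancel₀ hκ
  · intro a i
    have h1 : zr B V u' a i = (κ : ℂ)⁻¹ * zr B V u a i := by
      unfold zr
      change B.coef a ((V a a₀).inc a i ≫ (S a ◁ (((κ : ℂ)⁻¹ • u.hom))) ≫ (ρ_ (S a)).hom) = _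
      simp
    rw [h1, norm_mul, hr a i, norm_inv, Complex.norm_real, Real.norm_of_nonneg (norm_nonneg _)]
    exact inv_mul_cancel₀ hκ

variable [BraidedCategory C]

/-- A braided fusion category with a gauge with unitary F-matrices is unitary as a braided
category. -/
theorem isBraidedUnitary_of_unitaryF (hC : IsFusionCategory C) (hS : IsSimpleList S) (g : Gauge S)
    (hg : g.UnitaryF) : IsBraidedUnitary C := by
  obtain ⟨𝒟⟩ := exists_udata hC hS g hg
  have hstr := exists_hstr hS 𝒟.B hC.semisimple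
  have : (forgetF (𝒟 := 𝒟)).EssSurj := ⟨fun X => ⟨⟨X, (hstr X).some⟩, ⟨Iso.refl _⟩⟩⟩
  exact ⟨HObj 𝒟, inferInstance, inferInstance, inferInstance, inferInstance, inferInstance, cstar,
    forgetF, inferInstance, inferInstance, inferInstance, { }, star_braiding_hobj hstr⟩

/-- In a gauge with unitary F-matrices, all the braiding matrices are unitary. -/
theorem unitaryR_of_unitaryF (hC : IsFusionCategory C) (hS : IsSimpleList S) (g : Gauge S)
    (hg : g.UnitaryF) : UnitaryR g := by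
  classical
  obtain ⟨𝒟, e, he⟩ := exists_udata' hC hS g hg
  have hstr := exists_hstr hS 𝒟.B hC.semisimple
  intro a b c
  let R : Matrix (Fin (g.N b a c)) (Fin (g.N a b c)) ℂ := fun j i =>
    (g.basis b a c).repr (g.basis a b c i ≫ (β_ (S a) (S b)).hom) j
  have hR : IsRMatrix g a b c R := by
    intro i
    exact ((g.basis b a c).sum_repr (g.basis a b c i ≫ (β_ (S a) (S b)).hom)).symm
  have hcard : g.N b a c = g.N a b c := by
    let φ : (S c ⟶ S a ⊗ S b) ≃ₗ[ℂ] (S c ⟶ S b ⊗ S a) :=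
      { toFun := fun f => f ≫ (β_ (S a) (S b)).hom
        invFun := fun f => f ≫ (β_ (S a) (S b)).inv
        left_inv := fun f => by simp
        right_inv := fun f => by simp
        map_add' := fun f g => by simp
        map_smul' := fun z f => by simp }
    have h1 := φ.finrank_eq
    rw [Module.finrank_eq_card_basis (g.basis a b c), Module.finrank_eq_card_basis (g.basis b a c),
      Fintype.card_fin, Fintype.card_fin] at h1
    exact h1.symm
  have h1 : R.conjTranspose * R = 1 := by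
    ext k i
    rw [Matrix.mul_apply]
    simp_rw [Matrix.conjTranspose_apply]
    -- the star structure
    have hβ := star_braiding_hobj (𝒟 := 𝒟) hstr (tObj 𝒟 a) (tObj 𝒟 b)
    let v : ∀ i : Fin (g.N a b c), tObj 𝒟 c ⟶ tObj 𝒟 a ⊗ tObj 𝒟 b := fun i => g.basis a b c i
    let w : ∀ j : Fin (g.N b a c), tObj 𝒟 c ⟶ tObj 𝒟 b ⊗ tObj 𝒟 a := fun j => g.basis b a c j
    have hv : ∀ i k, v i ≫ cstar.star (v k) = if i = k then 𝟙 (tObj 𝒟 c) else 0 := by
      intro i k
      have e1 : v i = (𝒟.V a b).inc c (e a b c i) := (he a b c i).symm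
      have e2 : v k = (𝒟.V a b).inc c (e a b c k) := (he a b c k).symm
      rw [e1, e2, star_V_inc]
      split_ifs with h
      · subst h
        exact (𝒟.V a b).inc_prj_self c _
      · exact (𝒟.V a b).inc_prj_ne c _ _ (fun h' => h ((e a b c).injective h'))
    have hw : ∀ i k, w i ≫ cstar.star (w k) = if i = k then 𝟙 (tObj 𝒟 c) else 0 := by
      intro i k
      have e1 : w i = (𝒟.V b a).inc c (e b a c i) := (he b a c i).symm
      have e2 : w k = (𝒟.V b a).inc c (e b a c k) := (he b a c k).symm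
      rw [e1, e2, star_V_inc]
      split_ifs with h
      · subst h
        exact (𝒟.V b a).inc_prj_self c _
      · exact (𝒟.V b a).inc_prj_ne c _ _ (fun h' => h ((e b a c).injective h'))
    have hvw : ∀ i, v i ≫ (β_ (tObj 𝒟 a) (tObj 𝒟 b)).hom = ∑ j, R j i • w j := fun i => hR i
    have h2 : (v i ≫ (β_ (tObj 𝒟 a) (tObj 𝒟 b)).hom) ≫
        cstar.star (v k ≫ (β_ (tObj 𝒟 a) (tObj 𝒟 b)).hom) =
        if i = k then 𝟙 (tObj 𝒟 c) else 0 := by
      rw [cstar.star_comp, hβ, Category.assoc, Iso.hom_inv_id_assoc, hv]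
    have h3 : (v i ≫ (β_ (tObj 𝒟 a) (tObj 𝒟 b)).hom) ≫
        cstar.star (v k ≫ (β_ (tObj 𝒟 a) (tObj 𝒟 b)).hom) =
        (∑ j, star (R j k) * R j i) • 𝟙 (tObj 𝒟 c) := by
      rw [hvw, hvw, cstar.star_sum, Preadditive.sum_comp, Finset.sum_smul]
      refine Finset.sum_congr rfl fun j _ => ?_
      rw [Preadditive.comp_sum, Finset.sum_eq_single j]
      · rw [cstar.star_smul, Linear.smul_comp, Linear.comp_smul, hw, if_pos rfl, smul_smul,
          mul_comm]
        rfl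
      · intro l _ hl
        rw [cstar.star_smul, Linear.smul_comp, Linear.comp_smul, hw, if_neg (Ne.symm hl), smul_zero,
          smul_zero]
      · intro h; exact absurd (Finset.mem_univ _) h
    rw [h2] at h3
    have hsc := scal_tObj 𝒟 c
    rw [Matrix.one_apply]
    by_cases hik : i = k
    · rw [if_pos hik] at h3
      rw [if_pos hik.symm]
      exact (hsc.inj (by rw [one_smul]; exact h3)).symm
    · rw [if_neg hik] at h3
      rw [if_neg (Ne.symm hik)]
      exact (hsc.inj (by rw [zero_smul]; exact h3)).symm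
  refine ⟨R, hR, h1, ?_⟩
  exact (Matrix.mul_eq_one_comm_of_equiv (finCongr hcard)).mpr h1

lemma isUnitary_of_isBraidedUnitary (h : IsBraidedUnitary C) : IsUnitary C := by
  obtain ⟨D, _, _, _, _, _, s, F, _, _, hF, hF', -⟩ := h
  exact ⟨D, inferInstance, inferInstance, inferInstance, inferInstance, s, F, inferInstance,
    inferInstance, hF, hF'⟩

end main

end Pool.Agent.D0H74.UFB
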